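import Pool.Agent.COS.Stmts

/-!
# Squad COS, row WRB: words of frames
-/

set_option autoImplicit false

namespace Pool.Agent.COS.H67

open Pool.Agent.PAR

/-- the word of a Boolean vector is determined by its letters -/
theorem ofFn_getD {n : ℕ} (w : Word) (h : w.length = n) :
    List.ofFn (fun i : Fin n => w.getD i false) = w := by
  apply List.ext_getElem
  · simp [h]
  · intro i h1 h2
    simp [List.getD_eq_getElem?_getD, List.getElem?_eq_getElem h2]

theorem getD_ofFn {n : ℕ} (y : Fin n → Bool) (j : ℕ) (hj : j < n) :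
    (List.ofFn y).getD j false = y ⟨j, hj⟩ := by
  simp [List.getD_eq_getElem?_getD, hj]

/-- the rows of a family of vectors, one after the other -/
def rows {N : ℕ} (z : Fin N → Fin N → Bool) : Word :=
  List.ofFn (fun k : Fin (N * N) => z k.divNat k.modNat)

theorem rows_length {N : ℕ} (z : Fin N → Fin N → Bool) : (rows z).length = N * N := by
  simp [rows]

theorem idx_lt {N i j : ℕ} (hi : i < N) (hj : j < N) : i * N + j < N * N := by
  calc i * N + j < i * N + N := by omega
    _ = (i + 1) * N := by ring
    _ ≤ N * N := Nat.mul_le_mul_right _ hi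

theorem rows_getD {N : ℕ} (z : Fin N → Fin N → Bool) {i j : ℕ} (hi : i < N) (hj : j < N) :
    (rows z).getD (i * N + j) false = z ⟨i, hi⟩ ⟨j, hj⟩ := by
  rw [rows, getD_ofFn _ _ (idx_lt hi hj)]
  have h1 : (⟨i * N + j, idx_lt hi hj⟩ : Fin (N * N)).divNat = ⟨i, hi⟩ := by
    apply Fin.ext
    change (i * N + j) / N = i
    rw [Nat.mul_comm, Nat.mul_add_div (by omega), Nat.div_eq_of_lt hj, add_zero]
  have h2 : (⟨i * N + j, idx_lt hi hj⟩ : Fin (N * N)).modNat = ⟨j, hj⟩ := by
    apply Fin.ext
    change (i * N + j) % N = j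
    rw [Nat.mul_comm, Nat.mul_add_mod, Nat.mod_eq_of_lt hj]
  rw [h1, h2]

theorem rows_inj {N : ℕ} {z z' : Fin N → Fin N → Bool} (h : rows z = rows z') : z = z' := by
  funext i j
  rw [← rows_getD z i.2 j.2, ← rows_getD z' i.2 j.2, h]

theorem rows_surj {N : ℕ} (w : Word) (h : w.length = N * N) :
    rows (fun i j : Fin N => w.getD (i * N + j) false) = w := by
  rw [rows]
  have h1 : (fun k : Fin (N * N) => w.getD ((k.divNat : ℕ) * N + (k.modNat : ℕ)) false) =
      fun k : Fin (N * N) => w.getD k false := by
    funext k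
    congr 1
    change (k : ℕ) / N * N + (k : ℕ) % N = k
    exact Nat.div_add_mod' _ _
  rw [h1]
  exact ofFn_getD w h

/-- the word of the data of a frame -/
def wd {N : ℕ} (t : Fr N) : Word :=
  List.ofFn t.1 ++ (List.ofFn t.2.1 ++ (rows t.2.2.1 ++ rows t.2.2.2))

theorem wd_length {N : ℕ} (t : Fr N) : (wd t).length = 2 * N + 2 * (N * N) := by
  simp only [wd, List.length_append, List.length_ofFn, rows_length]
  ring

theorem wd_inj {N : ℕ} : Function.Injective (wd : Fr N → Word) := by
  rintro ⟨Q, y, z, z'⟩ ⟨R, x, s, s'⟩ h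
  simp only [wd] at h
  obtain ⟨h1, h⟩ := List.append_inj h (by simp)
  obtain ⟨h2, h⟩ := List.append_inj h (by simp)
  obtain ⟨h3, h4⟩ := List.append_inj h (by simp [rows_length])
  rw [List.ofFn_injective h1, List.ofFn_injective h2, rows_inj h3, rows_inj h4]

theorem wd_surj {N : ℕ} (c : Word) (h : c.length = 2 * N + 2 * (N * N)) : ∃ t : Fr N, wd t = c := by
  refine ⟨(fun i => (c.take N).getD i false, fun i => ((c.drop N).take N).getD i false,
    fun i j => (((c.drop N).drop N).take (N * N)).getD (i * N + j) false,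
    fun i j => (((c.drop N).drop N).drop (N * N)).getD (i * N + j) false), ?_⟩
  simp only [wd]
  rw [ofFn_getD _ (by simp [h]; omega), ofFn_getD _ (by simp [h]; omega),
    rows_surj _ (by simp [h]; omega), rows_surj _ (by simp [h]; omega)]
  rw [List.take_append_drop, List.take_append_drop, List.take_append_drop]

theorem wd_Q {N : ℕ} (t : Fr N) : blW N (wd t) 0 = List.ofFn t.1 := by
  rw [blW, wd, Nat.zero_mul, List.drop_zero, List.take_append_of_le_length (by simp),
    List.take_of_length_le (by simp)]

theorem wd_y {N : ℕ} (t : Fr N) : blW N (wd t) 1 = List.ofFn t.2.1 := by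
  rw [blW, wd, Nat.one_mul, List.drop_append_of_le_length (by simp),
    List.drop_of_length_le (by simp), List.nil_append, List.take_append_of_le_length (by simp),
    List.take_of_length_le (by simp)]

theorem wd_Z {N : ℕ} (t : Fr N) : (wd t).drop (2 * N) = rows t.2.2.1 ++ rows t.2.2.2 := by
  have h : wd t = (List.ofFn t.1 ++ List.ofFn t.2.1) ++ (rows t.2.2.1 ++ rows t.2.2.2) := by
    simp [wd]
  rw [h]
  exact List.drop_left' (by simp; ring)

theorem wd_Z' {N : ℕ} (t : Fr N) : (wd t).drop (2 * N + N * N) = rows t.2.2.2 := by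
  have h : wd t = (List.ofFn t.1 ++ List.ofFn t.2.1 ++ rows t.2.2.1) ++ rows t.2.2.2 := by
    simp [wd]
  rw [h]
  exact List.drop_left' (by simp [rows_length]; ring)

theorem bl_rows {N : ℕ} (z : Fin N → Fin N → Bool) (w : Word) {i : ℕ} (hi : i < N) :
    blW N (rows z ++ w) i = List.ofFn (z ⟨i, hi⟩) := by
  have hle : (i + 1) * N ≤ N * N := Nat.mul_le_mul_right _ hi
  have hle' : i * N + N ≤ N * N := by linarith [add_mul i 1 N]
  rw [blW, List.drop_append_of_le_length (by rw [rows_length]; omega),
    List.take_append_of_le_length (by rw [List.length_drop, rows_length]; omega)]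
  apply List.ext_getElem
  · simp only [List.length_take, List.length_drop, rows_length, List.length_ofFn]
    omega
  · intro j h1 h2
    have hj : j < N := by simpa using h2
    have h3 := rows_getD z hi hj
    have h4 : i * N + j < (rows z).length := by
      rw [rows_length]; exact idx_lt hi hj
    rw [List.getD_eq_getElem?_getD, List.getElem?_eq_getElem h4, Option.getD_some] at h3
    simp only [List.getElem_take, List.getElem_drop, List.getElem_ofFn]
    exact h3

theorem bl_Z {N : ℕ} (t : Fr N) {i : ℕ} (hi : i < N) :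
    blW N ((wd t).drop (2 * N)) i = List.ofFn (t.2.2.1 ⟨i, hi⟩) := by
  rw [wd_Z, bl_rows _ _ hi]

theorem bl_Z' {N : ℕ} (t : Fr N) {i : ℕ} (hi : i < N) :
    blW N ((wd t).drop (2 * N + N * N)) i = List.ofFn (t.2.2.2 ⟨i, hi⟩) := by
  rw [wd_Z']
  have h := bl_rows t.2.2.2 [] hi
  rwa [List.append_nil] at h

theorem frame_iff {N : ℕ} (f : Word → Bool) (t : Fr N) :
    frameW f N (blW N (wd t) 0) (blW N (wd t) 1) ((wd t).drop (2 * N))
      ((wd t).drop (2 * N + N * N)) = true ↔ IsFrame {y | f (List.ofFn y) = true} t := by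
  obtain ⟨Q, y, z, z'⟩ := t
  have key : frameW f N (blW N (wd (Q, y, z, z')) 0) (blW N (wd (Q, y, z, z')) 1)
      ((wd (Q, y, z, z')).drop (2 * N)) ((wd (Q, y, z, z')).drop (2 * N + N * N)) = true ↔
      (f (List.ofFn y) = true ∧ (∀ i : Fin N, Q i = true → y i = false)) ∧
      ∀ i : Fin N, (Q i = true → ((f (List.ofFn (z i)) = true ∧ f (List.ofFn (z' i)) = true) ∧
          (z i i = true ∧ z' i i = false) ∧ (∀ j < i, z i j = z' i j) ∧
          ∀ j, j ≠ i → Q j = true → (z i j = false ∧ z' i j = false))) ∧
        (Q i = false → ∀ j, z i j = false ∧ z' i j = false) := by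
    rw [wd_Q, wd_y, frameW]
    simp only [Bool.and_eq_true, decide_eq_true_eq]
    refine and_congr (and_congr Iff.rfl ?_) ?_
    · constructor
      · intro h i hi
        have := h i.1 i.2
        rw [getD_ofFn _ _ i.2, getD_ofFn _ _ i.2] at this
        simp only [Fin.eta, hi] at this
        simpa using this
      · intro h i hi
        rw [getD_ofFn _ _ hi, getD_ofFn _ _ hi]
        have := h ⟨i, hi⟩
        cases hq : Q ⟨i, hi⟩
        · simp
        · simp [this hq]
    · constructor
      · intro h i
        have hi := h i.1 i.2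
        rw [bl_Z (Q, y, z, z') i.2, bl_Z' (Q, y, z, z') i.2, getD_ofFn _ _ i.2] at hi
        simp only [Fin.eta] at hi
        refine ⟨fun hq => ?_, fun hq => ?_⟩
        · rw [if_pos (by simpa using hq)] at hi
          simp only [Bool.and_eq_true, decide_eq_true_eq] at hi
          obtain ⟨⟨⟨⟨⟨h1, h2⟩, h3⟩, h4⟩, h5⟩, h6⟩ := hi
          rw [getD_ofFn _ _ i.2] at h3 h4
          refine ⟨⟨h1, h2⟩, ⟨by simpa using h3, by simpa using h4⟩, ?_, ?_⟩
          · intro j hj
            have := h5 j.1 j.2
            rw [getD_ofFn _ _ j.2, getD_ofFn _ _ j.2] at this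
            simp only [Fin.eta, Bool.or_eq_true, Bool.not_eq_true', decide_eq_false_iff_not,
              decide_eq_true_eq] at this
            rcases this with h | h
            · exact absurd (Fin.lt_def.mp hj) h
            · exact h
          · intro j hj hqj
            have := h6 j.1 j.2
            rw [getD_ofFn _ _ j.2, getD_ofFn _ _ j.2, getD_ofFn _ _ j.2] at this
            simp only [Fin.eta, Bool.or_eq_true, Bool.not_eq_true', decide_eq_true_eq,
              Bool.and_eq_true, hqj] at this
            rcases this with (h | h) | h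
            · exact absurd (Fin.ext h) hj
            · exact absurd h (by simp)
            · exact h
        · rw [if_neg (by simp [hq])] at hi
          simp only [decide_eq_true_eq] at hi
          intro j
          have := hi j.1 j.2
          rw [getD_ofFn _ _ j.2, getD_ofFn _ _ j.2] at this
          simpa using this
      · intro h i hi
        rw [bl_Z (Q, y, z, z') hi, bl_Z' (Q, y, z, z') hi, getD_ofFn _ _ hi]
        obtain ⟨h1, h2⟩ := h ⟨i, hi⟩
        by_cases hq : Q ⟨i, hi⟩ = true
        · rw [if_pos hq]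
          obtain ⟨⟨a1, a2⟩, ⟨a3, a4⟩, a5, a6⟩ := h1 hq
          simp only [Bool.and_eq_true, decide_eq_true_eq]
          refine ⟨⟨⟨⟨⟨a1, a2⟩, ?_⟩, ?_⟩, ?_⟩, ?_⟩
          · rw [getD_ofFn _ _ hi]; exact a3
          · rw [getD_ofFn _ _ hi]; simpa using a4
          · intro j hj
            rw [getD_ofFn _ _ hj, getD_ofFn _ _ hj]
            by_cases hji : j < i
            · have := a5 ⟨j, hj⟩ (Fin.lt_def.mpr hji)
              simp [this]
            · simp [hji]
          · intro j hj
            rw [getD_ofFn _ _ hj, getD_ofFn _ _ hj, getD_ofFn _ _ hj]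
            by_cases hji : j = i
            · simp [hji]
            · cases hqj : Q ⟨j, hj⟩
              · simp
              · have := a6 ⟨j, hj⟩ (by intro h; exact hji (congrArg Fin.val h)) hqj
                simp [this.1, this.2]
        · rw [if_neg hq]
          have hq' : Q ⟨i, hi⟩ = false := by simpa using hq
          simp only [decide_eq_true_eq]
          intro j hj
          rw [getD_ofFn _ _ hj, getD_ofFn _ _ hj]
          have := h2 hq' ⟨j, hj⟩
          simp [this.1, this.2]
  rw [key]
  constructor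
  · rintro ⟨⟨h1, h2⟩, h3⟩
    exact { mem := h1
            zer := h2
            row := fun i hi => ((h3 i).1 hi).1
            one := fun i hi => ((h3 i).1 hi).2.1
            pre := fun i hi => ((h3 i).1 hi).2.2.1
            red := fun i hi => ((h3 i).1 hi).2.2.2
            out := fun i hi => (h3 i).2 hi }
  · intro h
    exact ⟨⟨h.mem, h.zer⟩, fun i => ⟨fun hi => ⟨h.row i hi, h.one i hi, h.pre i hi, h.red i hi⟩,
      fun hi => h.out i hi⟩⟩

theorem wrb : WrbStmt := fun _ =>
  ⟨wd, wd_inj, wd_length, wd_surj, fun f t => frame_iff f t⟩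

end Pool.Agent.COS.H67
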